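import Pool.Agent.Helper34.FB.Goals

/-!
# Project FB (MP_05c055_al), packet GV: the operators on the homology of `N ⊗ k`
-/

set_option autoImplicit false

namespace Pool.Agent.Helper28.FB

open IsLocalRing Pool.Agent.Helper26.DA Pool.Agent.Helper34.FB

universe u v

section

variable {A : Type u} [CommRing A] [IsLocalRing A] {e0 : ℕ} {a : Fin e0 → A}
  {N : Type v} [AddCommGroup N] [Module A N]

theorem exists_sum (ha : MinGen a) {z : N} (hz : z ∈ maximalIdeal A • (⊤ : Submodule A N)) :
    ∃ y : Fin e0 → N, z = ∑ l, a l • y l := by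
  induction hz using Submodule.smul_induction_on' with
  | smul r hr n hn =>
    rw [← ha.1, Ideal.mem_span_range_iff_exists_fun] at hr
    obtain ⟨c, rfl⟩ := hr
    refine ⟨fun l => c l • n, ?_⟩
    rw [Finset.sum_smul]
    exact Finset.sum_congr rfl fun l _ => by rw [smul_smul, mul_comm]
  | add x hx y hy h1 h2 =>
    obtain ⟨p, rfl⟩ := h1
    obtain ⟨q, rfl⟩ := h2
    exact ⟨fun l => p l + q l, by simp only [smul_add, Finset.sum_add_distrib]⟩

theorem mem_of_sum (ha : MinGen a) [Module.Free A N] {y : Fin e0 → N}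
    (hy : ∑ l, a l • y l = 0) (l : Fin e0) : y l ∈ maximalIdeal A • (⊤ : Submodule A N) := by
  set b := Module.Free.chooseBasis A N with hb
  have h1 : ∀ i, b.repr (y l) i ∈ maximalIdeal A := by
    intro i
    refine ha.2 (fun l => b.repr (y l) i) ?_ l
    have h2 := congrArg (fun n => b.repr n i) hy
    simp only [map_sum, map_smul, map_zero, Finsupp.coe_zero, Pi.zero_apply,
      Finsupp.finsetSum_apply, Finsupp.smul_apply, smul_eq_mul] at h2
    exact h2
  rw [← b.linearCombination_repr (y l), Finsupp.linearCombination_apply]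
  exact Submodule.finsuppSum_mem _ _ _ _ fun i _ => Submodule.smul_mem_smul (h1 i) trivial

end

theorem gGV : Pool.Agent.Helper34.FB.G_GV.{u, v} := by
  intro A _ _ e0 a ha N _ _ _ d hdd
  have memZ : ∀ (z : N) (y : Fin e0 → N), d z = ∑ l, a l • y l → ∀ l, y l ∈ Zg d := by
    intro z y h l
    have h1 : ∑ l, a l • d (y l) = 0 := by
      have h2 := hdd z
      rw [h, map_sum] at h2
      simpa only [map_smul] using h2
    exact mem_of_sum ha h1 l
  have mB : maximalIdeal A • (⊤ : Submodule A N) ≤ Bg d := le_sup_right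
  have rB : ∀ n, d n ∈ Bg d := fun n => Submodule.mem_sup_left (LinearMap.mem_range_self _ _)
  have mkeq : ∀ z w : Zg d, (z : N) - w ∈ Bg d →
      (Submodule.Quotient.mk z : Vg d) = Submodule.Quotient.mk w := fun z w h =>
    (Submodule.Quotient.eq _).2 h
  have uq : ∀ y y' : Fin e0 → Zg d, ∑ l, a l • (y l : N) = ∑ l, a l • (y' l : N) →
      ∀ l, (Submodule.Quotient.mk (y l) : Vg d) = Submodule.Quotient.mk (y' l) := by
    intro y y' h l
    refine mkeq _ _ (mB (mem_of_sum ha (y := fun l => (y l : N) - y' l) ?_ l))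
    simp only [smul_sub, Finset.sum_sub_distrib]
    rw [h, sub_self]
  have ex : ∀ z : Zg d, ∃ y : Fin e0 → Zg d, d z = ∑ l, a l • (y l : N) := by
    intro z
    obtain ⟨y, hy⟩ := exists_sum ha (show d z ∈ maximalIdeal A • (⊤ : Submodule A N) from z.2)
    exact ⟨fun l => ⟨y l, memZ z y hy l⟩, hy⟩
  choose Y hY using ex
  let D0 : Fin e0 → (Zg d →ₗ[A] Vg d) := fun l =>
    { toFun := fun z => Submodule.Quotient.mk (Y z l)
      map_add' := by
        intro z w
        rw [← Submodule.Quotient.mk_add]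
        refine uq (Y (z + w)) (fun l => Y z l + Y w l) ?_ l
        rw [← hY (z + w)]
        simp only [Submodule.coe_add, smul_add, Finset.sum_add_distrib, map_add]
        rw [← hY z, ← hY w]
      map_smul' := by
        intro c z
        rw [RingHom.id_apply, ← Submodule.Quotient.mk_smul]
        refine uq (Y (c • z)) (fun l => c • Y z l) ?_ l
        rw [← hY (c • z)]
        simp only [Submodule.coe_smul, map_smul]
        rw [hY z, Finset.smul_sum]
        exact Finset.sum_congr rfl fun l _ => smul_comm _ _ _ }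
  have D0_of : ∀ (l : Fin e0) (z : Zg d) (y : Fin e0 → Zg d), d z = ∑ l, a l • (y l : N) →
      D0 l z = Submodule.Quotient.mk (y l) := by
    intro l z y hy
    exact uq (Y z) y (by rw [← hY z, hy]) l
  have D0_ker : ∀ (l : Fin e0), (Bg d).comap (Zg d).subtype ≤ LinearMap.ker (D0 l) := by
    intro l z hz
    obtain ⟨x, hx, μ, hμ, hxz⟩ := Submodule.mem_sup.1 (show (z : N) ∈ Bg d from hz)
    obtain ⟨w, rfl⟩ := LinearMap.mem_range.1 hx
    obtain ⟨m, hm⟩ := exists_sum ha hμ
    have h1 : d z = ∑ l, a l • d (m l) := by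
      rw [← hxz, map_add, hdd w, zero_add, hm, map_sum]
      simp only [map_smul]
    have h2 := memZ z (fun l => d (m l)) h1
    rw [LinearMap.mem_ker, D0_of l z (fun l => ⟨d (m l), h2 l⟩) h1]
    exact (Submodule.Quotient.mk_eq_zero _).2 (rB (m l))
  refine ⟨fun l => Submodule.liftQ _ (D0 l) (D0_ker l), ?_⟩
  intro z y hy l
  exact ⟨memZ z y hy l, D0_of l z (fun l => ⟨y l, memZ z y hy l⟩) hy⟩

end Pool.Agent.Helper28.FB
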